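import Pool.Agent.K3h56.CL.B

set_option autoImplicit false

/-!
# MP_850839: the tube inequality for arbitrary tubes tested against functions layered by convex sets

All families of `δ`-tubes with `δ`-separated orientations are allowed.  The inequality of the
problem is, by duality, the inequality `∫ g Σ 1_T ≤ C δ^((n-1)/q) (#T)^(1-1/(q(n-1))) ‖g‖_{q'}` for
all functions `g`.

A *layer* is a difference `U \ K` of two convex sets of `ℝ^n`: a shell between two convex surfaces
of any shape and thickness, a convex set, the complement of a convex set in a convex set, ...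
There are no conditions on the size, the shape, the thickness or the smoothness of the layers; a
layer may be much thinner than the tubes or contain very many of them.

1. (the endpoint `q = n/(n-1)`, for sets) If the set `A` is covered, up to a null set, by `D` layers
   of total volume at most `W`, the inequality holds for `g = 1_A` without any loss (with `W` in place
   of `|A|`).  For general sets it fails at this exponent.
2. For all `q > n/(n-1)` the inequality holds, without loss in `δ`, for all functions `g` such that,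
   for every `s > 0`, the set `{|g| > s}` is covered by `D` layers of total volume at most `M` times
   its volume.  (Example: `g = F ∘ φ` with `φ` a norm or any convex function and `F ≥ 0` any
   function which is monotone on each of `D` intervals that partition the line; here `M = 1`.)
3. Hence the inequality of the problem holds for all families of tubes whose multiplicity function
   has a layered majorant of comparable norm.
-/

open MeasureTheory Set Filter Topology ENNReal NNReal Metric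

namespace Pool.Agent.Results.MP_850839_an.ConvexLayerTests

/-- `A` is covered, up to a null set, by `D` differences `U i \ K i` of two convex sets, of total
volume at most `W`. -/
def LayerCover {n : ℕ} (D : ℕ) (W : ℝ≥0∞) (A : Set (EuclideanSpace ℝ (Fin n))) : Prop :=
  ∃ U K : Fin D → Set (EuclideanSpace ℝ (Fin n)), (∀ i, Convex ℝ (U i)) ∧ (∀ i, Convex ℝ (K i)) ∧
    volume (A \ ⋃ i, U i \ K i) = 0 ∧ ∑ i, volume (U i \ K i) ≤ W

/-- For every `s > 0` the set `{|g| > s}` is covered, up to a null set, by `D` differences of two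
convex sets, of total volume at most `M` times its volume. -/
def Layered {n : ℕ} (D : ℕ) (M : ℝ) (g : EuclideanSpace ℝ (Fin n) → ℝ) : Prop :=
  ∀ s : ℝ, 0 < s → LayerCover D (ENNReal.ofReal M * volume {y | s < |g y|}) {y | s < |g y|}

/-- The closed tube of length `1` and radius `δ` with centre `b` and axis direction `e`. -/
def tube {n : ℕ} (δ : ℝ) (e b : EuclideanSpace ℝ (Fin n)) : Set (EuclideanSpace ℝ (Fin n)) :=
  {y | |inner ℝ (y - b) e| ≤ 1 / 2 ∧ ‖(y - b) - (inner ℝ (y - b) e : ℝ) • e‖ ≤ δ}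

/-- Unit vectors that are `δ`-separated. -/
def Separated {n : ℕ} (δ : ℝ) {ι : Type} (e : ι → EuclideanSpace ℝ (Fin n)) : Prop :=
  (∀ i, ‖e i‖ = 1) ∧ ∀ i j, i ≠ j → δ ≤ ‖e i - e j‖

/-- The multiplicity function `Σ 1_T` of a family of tubes with directions `e` and centres `a`. -/
noncomputable def mult {n : ℕ} (δ : ℝ) {ι : Type} [Fintype ι] (e a : ι → EuclideanSpace ℝ (Fin n))
    (y : EuclideanSpace ℝ (Fin n)) : ℝ :=
  ∑ i, (tube δ (e i) (a i)).indicator (fun _ => (1 : ℝ)) y

theorem cap_of_cover {m D : ℕ} {W : ℝ≥0∞} {A : Set (EuclideanSpace ℝ (Fin (m + 1)))}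
    (hA : LayerCover D W A) : Pool.Agent.K3h56.CL.Cap A
      (ENNReal.ofReal (2 ^ (m + 1) * (D:ℝ) ^ m * Pool.Agent.R462.KC.c0 m) * W) := by
  obtain ⟨P, hPm, hP, hPint⟩ := Pool.Agent.R462.KC.set_major (m := m) hA
  exact ⟨P, hPm, hP, hPint⟩

theorem capF_of_layered {m D : ℕ} {M : ℝ}
    {g : EuclideanSpace ℝ (Fin (m + 1)) → ℝ} (hg : Layered D M g) :
    Pool.Agent.K3h56.CL.CapF (2 ^ (m + 1) * (D:ℝ) ^ m * Pool.Agent.R462.KC.c0 m * M) g := by
  intro s hs
  have h1 := cap_of_cover (hg s hs)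
  have hc := Pool.Agent.R462.KC.c0_pos m
  rw [← mul_assoc, ← ENNReal.ofReal_mul (by positivity)] at h1
  exact h1

/-- **Tube inequalities for test functions layered by convex sets.**  For `n ≥ 2`, all
`0 < δ < 1` and all finite families of `δ`-tubes in `ℝ^n` with `δ`-separated orientations:

1. (the endpoint `q = n/(n-1)`, for sets) for `A` covered by `D` layers of total volume at most `W`,
  `∫_A Σ 1_T ≤ C D^(1-1/n) δ^((n-1)^2/n) (#T)^(1-1/n) W^(1/n)`;
2. for `q > n/(n-1)` and `g` layered with the parameters `D` and `M`,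
  `∫ |g| Σ 1_T ≤ C D^(1/q) M^(1/(q(n-1))) δ^((n-1)/q) (#T)^(1-1/(q(n-1))) ‖g‖_{q/(q-1)}`;
3. for `q > n/(n-1)`: if `Σ 1_T ≤ |g|` almost everywhere and `‖g‖_q ≤ K ‖Σ 1_T‖_q` for some `g`
  layered with the parameters `D` and `M` (for instance if `Σ 1_T` itself is layered, and `K = 1`),
  then `‖Σ 1_T‖_q ≤ C K^(q-1) D^(1/q) M^(1/(q(n-1))) δ^((n-1)/q) (#T)^(1-1/(q(n-1)))`.

The constants `C` depend on `n` and `q` only. -/
theorem result (n : ℕ) (hn : 2 ≤ n) :
    (∃ C : ℝ, 0 < C ∧ ∀ (D : ℕ) (W : ℝ≥0∞) (A : Set (EuclideanSpace ℝ (Fin n))) (δ : ℝ) (ι : Type)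
      [Fintype ι] (e a : ι → EuclideanSpace ℝ (Fin n)), 1 ≤ D → LayerCover D W A →
      0 < δ → δ < 1 → Separated δ e →
      ∫⁻ y in A, ENNReal.ofReal (mult δ e a y) ≤
        ENNReal.ofReal (C * (D:ℝ) ^ (1 - 1 / (n:ℝ)) * δ ^ (((n:ℝ) - 1) ^ 2 / n) *
          (Fintype.card ι : ℝ) ^ (1 - 1 / (n:ℝ))) * W ^ (1 / (n:ℝ))) ∧
    (∀ q : ℝ, (n:ℝ) / (n - 1) < q → ∃ C : ℝ, 0 < C ∧ ∀ (D : ℕ) (M δ : ℝ) (ι : Type) [Fintype ι]
      (e a : ι → EuclideanSpace ℝ (Fin n)) (g : EuclideanSpace ℝ (Fin n) → ℝ), 1 ≤ D → 0 < M →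
      0 < δ → δ < 1 → Separated δ e → AEMeasurable g volume → Layered D M g →
      ∫⁻ y, ‖g y‖ₑ * ENNReal.ofReal (mult δ e a y) ≤
        ENNReal.ofReal (C * (D:ℝ) ^ (1 / q) * M ^ (1 / (q * (n - 1))) * δ ^ (((n:ℝ) - 1) / q) *
          (Fintype.card ι : ℝ) ^ (1 - 1 / (q * (n - 1)))) *
        eLpNorm g (ENNReal.ofReal (q / (q - 1))) volume) ∧
    (∀ q : ℝ, (n:ℝ) / (n - 1) < q → ∃ C : ℝ, 0 < C ∧ ∀ (D : ℕ) (M δ K : ℝ) (ι : Type) [Fintype ι]
      (e a : ι → EuclideanSpace ℝ (Fin n)) (g : EuclideanSpace ℝ (Fin n) → ℝ), 1 ≤ D → 0 < M →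
      0 < δ → δ < 1 → Separated δ e → AEMeasurable g volume → Layered D M g → 0 ≤ K →
      (∀ᵐ y, mult δ e a y ≤ |g y|) →
      eLpNorm g (ENNReal.ofReal q) volume ≤
        ENNReal.ofReal K * eLpNorm (mult δ e a) (ENNReal.ofReal q) volume →
      eLpNorm (mult δ e a) (ENNReal.ofReal q) volume ≤
        ENNReal.ofReal (C * K ^ (q - 1) * (D:ℝ) ^ (1 / q) * M ^ (1 / (q * (n - 1))) *
          δ ^ (((n:ℝ) - 1) / q) * (Fintype.card ι : ℝ) ^ (1 - 1 / (q * (n - 1))))) := by
  obtain ⟨m, rfl⟩ : ∃ m, n = m + 1 := ⟨n - 1, by omega⟩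
  have hm : 1 ≤ m := by omega
  have hm0 : (0:ℝ) < m := by exact_mod_cast hm
  have hcast : ((m + 1 : ℕ) : ℝ) - 1 = m := by push_cast; ring
  have hcast' : ((m + 1 : ℕ) : ℝ) = m + 1 := by push_cast; ring
  have hc := Pool.Agent.R462.KC.c0_pos m
  set c1 : ℝ := 2 ^ (m + 1) * Pool.Agent.R462.KC.c0 m with hc1
  have hc10 : 0 < c1 := by positivity
  have hκ : ∀ (D : ℕ) (M q : ℝ), 1 ≤ D → 0 < M → 0 < q →
      (2 ^ (m + 1) * (D:ℝ) ^ m * Pool.Agent.R462.KC.c0 m * M) ^ (1 / (q * m)) =
        c1 ^ (1 / (q * m)) * (D:ℝ) ^ (1 / q) * M ^ (1 / (q * m)) := by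
    intro D M q hD hM hq
    have hD0 : (0:ℝ) < D := by exact_mod_cast hD
    have e1 : 2 ^ (m + 1) * (D:ℝ) ^ m * Pool.Agent.R462.KC.c0 m * M = c1 * (D:ℝ) ^ m * M := by
      rw [hc1]; ring
    rw [e1, Real.mul_rpow (by positivity) hM.le, Real.mul_rpow (by positivity) (by positivity),
      ← Real.rpow_natCast, ← Real.rpow_mul hD0.le]
    congr 3
    field_simp
  refine ⟨?_, ?_, ?_⟩
  · obtain ⟨C, hC, h⟩ := Pool.Agent.K3h56.CL.set_est' m hm
    refine ⟨C ^ ((m:ℝ) / (m + 1)) * c1 ^ (1 / ((m:ℝ) + 1)), by positivity, ?_⟩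
    intro D W A δ ι _ e a hD hA hδ hδ1 hsep
    have hD0 : (0:ℝ) < D := by exact_mod_cast hD
    set κ : ℝ := 2 ^ (m + 1) * (D:ℝ) ^ m * Pool.Agent.R462.KC.c0 m with hκdef
    have hκ0 : 0 < κ := by positivity
    have h1 := h A W κ δ ι e a hκ0 (cap_of_cover hA) hδ hδ1.le hsep.1 hsep.2
    have h2 : ∫⁻ y in A, ENNReal.ofReal (mult δ e a y) = ∑ i, volume (tube δ (e i) (a i) ∩ A) := by
      have h3 : ∀ y, ENNReal.ofReal (mult δ e a y) =
          ∑ i, (tube δ (e i) (a i)).indicator (fun _ => (1 : ℝ≥0∞)) y := by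
        intro y
        unfold mult
        rw [ENNReal.ofReal_sum_of_nonneg fun i _ => indicator_nonneg (fun _ _ => zero_le_one) _]
        refine Finset.sum_congr rfl fun i _ => ?_
        by_cases hy : y ∈ tube δ (e i) (a i)
        · rw [indicator_of_mem hy, indicator_of_mem hy, ENNReal.ofReal_one]
        · rw [indicator_of_notMem hy, indicator_of_notMem hy, ENNReal.ofReal_zero]
      have hTm : ∀ i, MeasurableSet (tube δ (e i) (a i)) := fun i =>
        (Pool.Agent.W770.SA.isClosed_tube δ (e i) (a i)).measurableSet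
      simp_rw [h3]
      rw [lintegral_finsetSum _ fun i _ => measurable_const.indicator (hTm i)]
      refine Finset.sum_congr rfl fun i _ => ?_
      rw [lintegral_indicator_const (hTm i), one_mul, Measure.restrict_apply (hTm i)]
    rw [h2]
    rcases Nat.eq_zero_or_pos (Fintype.card ι) with h0 | h0
    · have : IsEmpty ι := Fintype.card_eq_zero_iff.1 h0
      simp
    set N : ℝ := (Fintype.card ι : ℝ) with hN
    have hN0 : 0 < N := by rw [hN]; exact_mod_cast h0
    rw [hcast']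
    refine h1.trans (le_of_eq ?_)
    congr 2
    unfold Pool.Agent.K3h56.CL.crV
    rw [Real.mul_rpow (by positivity) (by positivity), Real.mul_rpow (by positivity) (by positivity),
      Real.mul_rpow (by positivity) (by positivity), ← Real.rpow_mul hκ0.le, ← Real.rpow_natCast δ m,
      ← Real.rpow_mul hδ.le, ← Real.rpow_mul hN0.le]
    have e1 : κ ^ (1 / (m:ℝ) * ((m:ℝ) / (m + 1))) =
        c1 ^ (1 / ((m:ℝ) + 1)) * (D:ℝ) ^ (1 - 1 / ((m:ℝ) + 1)) := by
      have e0 : κ = c1 * (D:ℝ) ^ m := by rw [hκdef, hc1]; ring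
      have e2 : 1 / (m:ℝ) * ((m:ℝ) / (m + 1)) = 1 / ((m:ℝ) + 1) := by field_simp
      rw [e2, e0, Real.mul_rpow hc10.le (by positivity), ← Real.rpow_natCast, ← Real.rpow_mul hD0.le]
      congr 2
      field_simp
      ring
    have e2 : (m:ℝ) * ((m:ℝ) / (m + 1)) = ((m:ℝ) + 1 - 1) ^ 2 / (m + 1) := by ring
    have e3 : -(1 / (m:ℝ)) * ((m:ℝ) / (m + 1)) = -(1 / ((m:ℝ) + 1)) := by field_simp
    have e4 : N * N ^ (-(1 / ((m:ℝ) + 1))) = N ^ (1 - 1 / ((m:ℝ) + 1)) := by
      nth_rewrite 1 [← Real.rpow_one N]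
      rw [← Real.rpow_add hN0]
      congr 1
    rw [e1, e2, e3, ← e4]
    ring
  · intro q hq
    rw [hcast, hcast'] at hq
    obtain ⟨C, hC, h⟩ := Pool.Agent.K3h56.CL.tests' m hm hq
    refine ⟨C * c1 ^ (1 / (q * m)), by positivity, ?_⟩
    intro D M δ ι _ e a g hD hM hδ hδ1 hsep hgm hg
    have hD0 : (0:ℝ) < D := by exact_mod_cast hD
    have hq1 : 1 < q := by
      refine lt_of_le_of_lt ?_ hq
      rw [le_div_iff₀ hm0]; linarith
    have hq0 : 0 < q := by linarith
    have hp0 : 0 < q / (q - 1) := div_pos (by linarith) (by linarith)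
    have h1 := h _ δ ι e a g (by positivity) hδ hδ1.le hsep.1 hsep.2 hgm (capF_of_layered hg)
    rw [hκ D M q hD hM hq0] at h1
    rw [hcast, eLpNorm_eq_lintegral_rpow_enorm_toReal
      (by rw [Ne, ENNReal.ofReal_eq_zero, not_le]; exact hp0) ENNReal.ofReal_ne_top,
      ENNReal.toReal_ofReal hp0.le]
    have h2 : 1 / (q / (q - 1)) = (q - 1) / q := by rw [one_div_div]
    rw [h2]
    refine h1.trans (le_of_eq ?_)
    congr 2
    ring
  · intro q hq
    rw [hcast, hcast'] at hq
    obtain ⟨C, hC, h⟩ := Pool.Agent.K3h56.CL.majorant' m hm hq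
    refine ⟨C * c1 ^ (1 / (q * m)), by positivity, ?_⟩
    intro D M δ K ι _ e a g hD hM hδ hδ1 hsep hgm hg hK hmaj hnorm
    have hD0 : (0:ℝ) < D := by exact_mod_cast hD
    have hq1 : 1 < q := by
      refine lt_of_le_of_lt ?_ hq
      rw [le_div_iff₀ hm0]; linarith
    have hq0 : 0 < q := by linarith
    have h1 := h _ δ K ι e a g (by positivity) hδ hδ1.le hsep.1 hsep.2 hgm (capF_of_layered hg)
      hK hmaj hnorm
    rw [hκ D M q hD hM hq0] at h1
    rw [hcast]
    refine h1.trans (le_of_eq ?_)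
    congr 1
    ring

end Pool.Agent.Results.MP_850839_an.ConvexLayerTests
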