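import Pool.Agent.K3h46.TMC.Final

set_option autoImplicit false

/-!
# MP_850839: the tube inequality in the full range, without loss, for tubes that meet a curve of
finite order

Let `γ : ℝ → ℝ^n` be a continuous curve such that, for every direction `ν ≠ 0`, almost every
hyperplane orthogonal to `ν` meets the curve at most `N` times (a line, a convex curve, a moment
curve, a polygonal path, an arc of a real algebraic curve, ...).  No smoothness, no curvature and
no boundedness is assumed.

Let `𝒯` be any family of `δ`-tubes with `δ`-separated orientations, all of which meet the curve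
(or only come `K δ`-close to it, after extension of their axes to length `2 R`).  There is no other
restriction: the tubes may be chosen in any way, and any number of them may pass through the same
part of the curve.  Then the conjectured inequality holds for every `q > n/(n-1)`, with a constant
independent of `δ`, of the family and of the curve, times `(N + 1)^min(1/q, 1 - 1/q)`.
-/

open MeasureTheory Set Filter Topology ENNReal NNReal Metric

namespace Pool.Agent.Results.MP_850839_an.TubesMeetingCurve

/-- The closed tube of length `1` and radius `δ` with centre `b` and axis direction `e`. -/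
def tube {n : ℕ} (δ : ℝ) (e b : EuclideanSpace ℝ (Fin n)) : Set (EuclideanSpace ℝ (Fin n)) :=
  {y | |inner ℝ (y - b) e| ≤ 1 / 2 ∧ ‖(y - b) - (inner ℝ (y - b) e : ℝ) • e‖ ≤ δ}

/-- The curve `γ` is of order at most `N`: for every direction `ν ≠ 0`, almost every hyperplane
orthogonal to `ν` meets the curve at most `N` times. -/
def OrderLE {n : ℕ} (N : ℕ) (γ : ℝ → EuclideanSpace ℝ (Fin n)) : Prop :=
  ∀ ν : EuclideanSpace ℝ (Fin n), ν ≠ 0 → ∀ᵐ c : ℝ, {u : ℝ | inner ℝ ν (γ u) = c}.encard ≤ N

/-- **The conjectured inequality for `δ`-tubes with `δ`-separated orientations, in the full range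
`q > n/(n-1)`, `n ≥ 3`, without any loss in `δ` and with the conjectured dependence on the number
of tubes**, for tubes near a curve of order at most `N`. -/
theorem result (n : ℕ) (hn : 3 ≤ n) (q : ℝ) (hq : (n : ℝ) / (n - 1) < q) (K R : ℝ) (hK : 0 ≤ K)
    (hR : 0 ≤ R) :
    ∃ C : ℝ, 0 < C ∧ ∀ (N : ℕ) (γ : ℝ → EuclideanSpace ℝ (Fin n)), Continuous γ → OrderLE N γ →
      ∀ δ : ℝ, 0 < δ → δ < 1 → ∀ (ι : Type) [Fintype ι] (e a : ι → EuclideanSpace ℝ (Fin n)),
        (∀ i, ‖e i‖ = 1) → (∀ i j, i ≠ j → δ ≤ ‖e i - e j‖) →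
        (∀ i, ∃ s t : ℝ, |s| ≤ R ∧ ‖a i + s • e i - γ t‖ ≤ K * δ) →
        eLpNorm (fun y => ∑ i, (tube δ (e i) (a i)).indicator (fun _ => (1 : ℝ)) y)
            (ENNReal.ofReal q) volume
          ≤ ENNReal.ofReal (C * ((N : ℝ) + 1) ^ (min (1 / q) (1 - 1 / q)) *
              δ ^ (((n : ℝ) - 1) / q) * (Fintype.card ι : ℝ) ^ (1 - 1 / (q * ((n : ℝ) - 1)))) := by
  obtain ⟨d, rfl⟩ : ∃ d, n = d + 1 := ⟨n - 1, by omega⟩
  have hd : 2 ≤ d := by omega
  have hd2 : (2 : ℝ) ≤ d := by exact_mod_cast hd
  have e1 : ((d + 1 : ℕ) : ℝ) - 1 = d := by push_cast; ring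
  rw [e1] at hq ⊢
  have hq' : 1 + 1 / (d : ℝ) < q := by
    have e2 : ((d + 1 : ℕ) : ℝ) / d = 1 + 1 / (d : ℝ) := by
      push_cast
      field_simp
    rwa [e2] at hq
  exact Pool.Agent.K3h46.TMC.final d hd hq' hK hR

end Pool.Agent.Results.MP_850839_an.TubesMeetingCurve
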