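import Pool.Agent.K3h46.TM.Main

set_option autoImplicit false

/-!
# MP_850839: typical matchings of directions and places satisfy the conjectured tube inequality

`n ≥ 3`, `q > n/(n-1)`, `γ = 1 - 1/((n-1)(q-1))`, `0 < γ < 1`.  Take ANY `δ`-separated directions
`e_1, ..., e_M` and ANY places `p_1, ..., p_M` in `ℝ^n` (concentrated or not, with repetitions), and
match them: the tube with direction `e_i` is centred at `p_{σ(i)}`, `σ` a permutation.  The
conjecture says that all the `M!` families of tubes satisfy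
`‖∑ 1_T‖_q ≤ C δ^((n-1)/q) M^(1-1/(q(n-1)))`.  We prove it, without any loss in `δ` or `M`, for all
but a proportion `C exp (-M^γ / 4)` of the matchings.

The same is proved for random mixtures of arbitrary good families: the tube number `i` is taken from
the family number `σ(i)` of `M` families, each of which satisfies the inequality (for instance from
tubes through prescribed curves `γ_1, ..., γ_M`), and for laws on the functions `σ` other than the
uniform law on the permutations.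
-/

open MeasureTheory Set Filter Topology
open scoped ENNReal NNReal Nat

namespace Pool.Agent.Results.MP_850839_an.TypicalMatchings

/-- The closed tube of length `1` and radius `δ` with centre `b` and axis direction `e`. -/
def tube {n : ℕ} (δ : ℝ) (e b : EuclideanSpace ℝ (Fin n)) : Set (EuclideanSpace ℝ (Fin n)) :=
  {y | |inner ℝ (y - b) e| ≤ 1 / 2 ∧ ‖(y - b) - (inner ℝ (y - b) e : ℝ) • e‖ ≤ δ}

/-- **The conjectured inequality with the constant `C`** for the `δ`-tubes with directions `e i` and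
centres `b i`. -/
def TubeBound {n : ℕ} {ι : Type} [Fintype ι] (q C δ : ℝ) (e b : ι → EuclideanSpace ℝ (Fin n)) :
    Prop :=
  eLpNorm (fun y => ∑ i, (tube δ (e i) (b i)).indicator (fun _ => (1 : ℝ)) y)
      (ENNReal.ofReal q) volume ≤
    ENNReal.ofReal (C * δ ^ (((n : ℝ) - 1) / q) *
      (Fintype.card ι : ℝ) ^ (1 - 1 / (q * ((n : ℝ) - 1))))

/-- `0 < δ < 1` and `e` is a `δ`-separated family of unit vectors. -/
def Separated {n : ℕ} {ι : Type} (δ : ℝ) (e : ι → EuclideanSpace ℝ (Fin n)) : Prop :=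
  0 < δ ∧ δ < 1 ∧ (∀ i, ‖e i‖ = 1) ∧ ∀ i j, i ≠ j → δ ≤ ‖e i - e j‖

/-- The number of the permutations `σ` for which the family that takes its tube number `i` from the
family `b (σ i)` (the tube with direction `e i` and centre `b (σ i) i`) does not satisfy the
conjectured inequality with the constant `C`. -/
noncomputable def exceptions {n : ℕ} {ι : Type} [Fintype ι] (q C δ : ℝ)
    (e : ι → EuclideanSpace ℝ (Fin n)) (b : ι → ι → EuclideanSpace ℝ (Fin n)) : ℕ :=
  Nat.card {σ : Equiv.Perm ι // ¬ TubeBound q C δ e (fun i => b (σ i) i)}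

/-- The proportion `C exp (-M^γ / 4)`, `γ = 1 - 1/((n-1)(q-1))`. -/
noncomputable def small (n : ℕ) (q C : ℝ) (M : ℕ) : ℝ :=
  C * Real.exp (-((M : ℝ) ^ (1 - 1 / (((n : ℝ) - 1) * (q - 1))) / 4))

/-- The curve `γ` is of order at most `N`: for every direction `ν ≠ 0`, almost every hyperplane
orthogonal to `ν` meets the curve at most `N` times. -/
def OrderLE {n : ℕ} (N : ℕ) (γ : ℝ → EuclideanSpace ℝ (Fin n)) : Prop :=
  ∀ ν : EuclideanSpace ℝ (Fin n), ν ≠ 0 → ∀ᵐ c : ℝ, {u : ℝ | inner ℝ ν (γ u) = c}.encard ≤ N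

open Classical in
/-- `w` is a probability on the finite set `Ω`, and the joint laws of the values of the random
function `τ ω : ι → κ` are at most `K^k` times the uniform ones: for any `k` indices the probability
that `τ ω` takes prescribed values there is at most `(K / #κ)^k`. -/
structure Spread {Ω ι κ : Type} [Fintype Ω] [Fintype κ] (K : ℝ) (w : Ω → ℝ) (τ : Ω → ι → κ) :
    Prop where
  nonneg : ∀ ω, 0 ≤ w ω
  one : ∑ ω, w ω = 1
  spread : ∀ (S : Finset ι) (a : ι → κ),
    ∑ ω ∈ Finset.univ.filter (fun ω => ∀ i ∈ S, τ ω i = a i), w ω ≤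
      (K / Fintype.card κ) ^ S.card

theorem exceptions_le {n : ℕ} {q : ℝ} {ι : Type} [Fintype ι] {C C' δ : ℝ} (hCC : C ≤ C')
    (hδ : 0 ≤ δ) (e : ι → EuclideanSpace ℝ (Fin n)) (b : ι → ι → EuclideanSpace ℝ (Fin n)) :
    exceptions q C' δ e b ≤ exceptions q C δ e b := by
  unfold exceptions
  refine Nat.card_le_card_of_injective (fun σ => ⟨σ.1, fun h => σ.2 ?_⟩) ?_
  · refine le_trans h (ENNReal.ofReal_le_ofReal ?_)
    gcongr
  · intro σ σ' h
    simpa [Subtype.ext_iff] using h

open Classical in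
/-- **Typical matchings satisfy the conjectured inequality.** -/
theorem result (n : ℕ) (hn : 3 ≤ n) (q : ℝ) (hq : (n : ℝ) / (n - 1) < q) :
    -- (1) all but a proportion `C exp (-M^γ / 4)` of the matchings of `M` arbitrary `δ`-separated
    -- directions with `M` arbitrary places
    (∃ C : ℝ, 0 < C ∧ ∀ (δ : ℝ) (ι : Type) [Fintype ι] (e p : ι → EuclideanSpace ℝ (Fin n)),
      Separated δ e →
      (exceptions q C δ e (fun k _ => p k) : ℝ) ≤ small n q C (Fintype.card ι) *
        (Fintype.card ι)!) ∧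
    -- (2) mixtures of `M` arbitrary families that satisfy the inequality with a constant `A`
    (∃ C : ℝ, 0 < C ∧ ∀ (A δ : ℝ) (ι : Type) [Fintype ι] (e : ι → EuclideanSpace ℝ (Fin n))
      (b : ι → ι → EuclideanSpace ℝ (Fin n)), 1 ≤ A → Separated δ e →
      (∀ k, TubeBound q A δ e (b k)) →
      (exceptions q (C * A) δ e b : ℝ) ≤ small n q C (Fintype.card ι) * (Fintype.card ι)!) ∧
    -- (3) tubes that meet prescribed curves `γ_k` of order at most `N`, one curve per direction
    (∀ R : ℝ, 0 ≤ R → ∃ C : ℝ, 0 < C ∧ ∀ (N : ℕ) (δ : ℝ) (ι : Type) [Fintype ι]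
      (e : ι → EuclideanSpace ℝ (Fin n)) (b : ι → ι → EuclideanSpace ℝ (Fin n))
      (γ : ι → ℝ → EuclideanSpace ℝ (Fin n)), Separated δ e →
      (∀ k, Continuous (γ k) ∧ OrderLE N (γ k)) →
      (∀ k i, ∃ s t : ℝ, |s| ≤ R ∧ ‖b k i + s • e i - γ k t‖ ≤ R * δ) →
      (exceptions q (C * (N + 1)) δ e b : ℝ) ≤ small n q C (Fintype.card ι) *
        (Fintype.card ι)!) ∧
    -- (4) random mixtures of any number of families, for every law with bounded joint laws
    (∃ C : ℝ, 0 < C ∧ ∀ (K A δ : ℝ) (Ω ι κ : Type) [Fintype Ω] [Fintype ι] [Fintype κ]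
      (w : Ω → ℝ) (τ : Ω → ι → κ) (e : ι → EuclideanSpace ℝ (Fin n))
      (b : κ → ι → EuclideanSpace ℝ (Fin n)), 1 ≤ K → 1 ≤ A → Spread K w τ → Separated δ e →
      (∀ k, TubeBound q A δ e (b k)) →
      ∑ ω ∈ Finset.univ.filter
          (fun ω => ¬ TubeBound q (C * K * A) δ e (fun i => b (τ ω i) i)), w ω ≤
        K * small n q C (Fintype.card ι)) ∧
    -- (5) examples: uniform permutations (`K = 3`) and independent uniform choices (`K = 1`)
    (∀ (ι : Type) [Fintype ι] [Nonempty ι],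
      Spread (Ω := Equiv.Perm ι) 3 (fun _ => ((Fintype.card ι)! : ℝ)⁻¹) (fun σ (i : ι) => σ i)) ∧
    (∀ (ι κ : Type) [Fintype ι] [Fintype κ] [Nonempty κ],
      Spread (Ω := ι → κ) 1 (fun _ => ((Fintype.card κ : ℝ) ^ Fintype.card ι)⁻¹)
        (fun f (i : ι) => f i)) := by
  have hn2 : 2 ≤ n := by omega
  obtain ⟨C1, hC1, h1⟩ := Pool.Agent.K3h46.TM.matchings n hn2 q hq
  have key : ∀ (A δ : ℝ) (ι : Type) [Fintype ι] (e : ι → EuclideanSpace ℝ (Fin n))
      (b : ι → ι → EuclideanSpace ℝ (Fin n)), 1 ≤ A → Separated δ e →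
      (∀ k, TubeBound q A δ e (b k)) → (exceptions q (C1 * A) δ e b : ℝ) ≤
        small n q C1 (Fintype.card ι) * (Fintype.card ι)! := by
    intro A δ ι _ e b hA hs hb
    have h2 := h1 A δ hA hs.1 ι e b hs.2.2.1 hb
    unfold exceptions small
    rw [Nat.card_eq_fintype_card, Fintype.card_subtype]
    exact h2
  have hsmall : ∀ {C C' : ℝ} (M : ℕ), C ≤ C' → small n q C M ≤ small n q C' M := by
    intro C C' M h
    unfold small
    gcongr
  refine ⟨?_, ⟨C1, hC1, key⟩, ?_, ?_, ?_, ?_⟩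
  · obtain ⟨C0, hC0, h0⟩ := Pool.Agent.K3h46.TM.bush n hn q hq
    refine ⟨C1 * C0, by positivity, ?_⟩
    intro δ ι _ e p hs
    refine (key C0 δ ι e (fun k _ => p k) hC0 hs fun k =>
      h0 (p k) δ hs.1 hs.2.1 ι e hs.2.2.1 hs.2.2.2).trans ?_
    gcongr
    exact hsmall _ (le_mul_of_one_le_right hC1.le hC0)
  · intro R hR
    obtain ⟨C0, hC0, h0⟩ := Pool.Agent.K3h46.TM.curves n hn q hq R hR
    refine ⟨C1 * C0, by positivity, ?_⟩
    intro N δ ι _ e b γ hs hγ hcl
    have hN : (1:ℝ) ≤ (N:ℝ) + 1 := by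
      have : (0:ℝ) ≤ N := Nat.cast_nonneg _
      linarith
    have h2 := key (C0 * ((N:ℝ) + 1)) δ ι e b (one_le_mul_of_one_le_of_one_le hC0 hN) hs
      (fun k => h0 N (γ k) (hγ k).1 (hγ k).2 δ hs.1 hs.2.1 ι e (b k) hs.2.2.1 hs.2.2.2 (hcl k))
    rw [← mul_assoc] at h2
    refine h2.trans ?_
    gcongr
    exact hsmall _ (le_mul_of_one_le_right hC1.le hC0)
  · obtain ⟨C, hC, h⟩ := Pool.Agent.K3h46.TM.mix n hn2 q hq
    refine ⟨C, hC, ?_⟩
    intro K A δ Ω ι κ _ _ _ w τ e b hK hA hsp hs hb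
    have h2 := h K A δ hK hA hs.1 Ω ι κ w τ ⟨hsp.nonneg, hsp.one, hsp.spread⟩ e b hs.2.2.1 hb
    refine h2.trans (le_of_eq ?_)
    unfold small
    have : Pool.Agent.K3h46.TM.gam n q = 1 - 1 / (((n : ℝ) - 1) * (q - 1)) := rfl
    rw [this]
    ring
  · intro ι _ _
    have h := Pool.Agent.K3h46.TM.spread_perm (ι := ι)
    exact ⟨h.nonneg, h.one, h.spread⟩
  · intro ι κ _ _ _
    have h := Pool.Agent.K3h46.TM.spread_indep (ι := ι) (κ := κ)
    exact ⟨h.nonneg, h.one, h.spread⟩

end Pool.Agent.Results.MP_850839_an.TypicalMatchings
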